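import Mathlib

/-!
# MV-8. Counting
-/

set_option autoImplicit false

namespace Pool.Agent.helper12.MV

open Finset

theorem cnt_small (V : Type*) [Fintype V] [DecidableEq V] (s : ℕ) :
    ((univ : Finset (Finset V)).filter fun S => S.card ≤ s).card ≤ (Fintype.card V + 1) ^ s := by
  have h1 : ((univ : Finset (Finset V)).filter fun S => S.card ≤ s) ⊆
      (univ : Finset (Fin s → Option V)).image
        fun f => univ.filter fun v => ∃ i, f i = some v := by
    intro S hS
    rw [mem_filter] at hS
    rw [mem_image]
    refine ⟨fun i => if h : (i : ℕ) < S.card then some (S.equivFin.symm ⟨i, h⟩ : V) else none,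
      mem_univ _, ?_⟩
    ext v
    rw [mem_filter]
    constructor
    · rintro ⟨_, i, hi⟩
      dsimp only at hi
      by_cases h : (i : ℕ) < S.card
      · rw [dif_pos h, Option.some.injEq] at hi
        rw [← hi]
        exact (S.equivFin.symm ⟨i, h⟩).2
      · rw [dif_neg h] at hi
        exact absurd hi (by simp)
    · intro hv
      refine ⟨mem_univ _, ⟨(S.equivFin ⟨v, hv⟩ : ℕ), lt_of_lt_of_le (Fin.is_lt _) hS.2⟩, ?_⟩
      dsimp only
      rw [dif_pos (Fin.is_lt _), Option.some.injEq]
      simp
  refine (card_le_card h1).trans (card_image_le.trans ?_)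
  rw [card_univ, Fintype.card_fun, Fintype.card_option, Fintype.card_fin]

theorem cnt_super {V : Type*} [Fintype V] [DecidableEq V] (N : ℕ) (T : Finset V) :
    ((powersetCard N (univ : Finset V)).filter fun W => T ⊆ W).card ≤
      (Fintype.card V - T.card).choose (N - T.card) := by
  have h1 : (powersetCard (N - T.card) (univ \ T)).card =
      (Fintype.card V - T.card).choose (N - T.card) := by
    rw [card_powersetCard, card_sdiff_of_subset (subset_univ T), card_univ]
  rw [← h1]
  refine card_le_card_of_injOn (fun W => W \ T) ?_ ?_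
  · intro W hW
    rw [mem_coe, mem_filter, mem_powersetCard] at hW
    rw [mem_coe, mem_powersetCard]
    refine ⟨sdiff_subset_sdiff (subset_univ W) subset_rfl, ?_⟩
    rw [card_sdiff_of_subset hW.2, hW.1.2]
  · intro W hW W' hW' h
    rw [mem_coe, mem_filter] at hW hW'
    dsimp only at h
    rw [← sdiff_union_of_subset hW.2, h, sdiff_union_of_subset hW'.2]

theorem cnt_desc {N n : ℕ} (h : N ≤ n) (t : ℕ) :
    N.descFactorial t * n ^ t ≤ n.descFactorial t * N ^ t := by
  induction t with
  | zero => simp
  | succ t ih =>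
    rw [Nat.descFactorial_succ, Nat.descFactorial_succ, pow_succ, pow_succ]
    have h1 : (N - t) * n ≤ (n - t) * N := by
      rw [Nat.sub_mul, Nat.sub_mul, mul_comm N n]
      exact Nat.sub_le_sub_left (Nat.mul_le_mul_left t h) _
    calc (N - t) * N.descFactorial t * (n ^ t * n) =
        ((N - t) * n) * (N.descFactorial t * n ^ t) := by ring
      _ ≤ ((n - t) * N) * (n.descFactorial t * N ^ t) := Nat.mul_le_mul h1 ih
      _ = _ := by ring

theorem cnt_choose {N n : ℕ} (h : N ≤ n) (t : ℕ) :
    N.choose t * n ^ t ≤ n.choose t * N ^ t := by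
  have h1 := cnt_desc h t
  rw [Nat.descFactorial_eq_factorial_mul_choose, Nat.descFactorial_eq_factorial_mul_choose,
    mul_assoc, mul_assoc] at h1
  exact Nat.le_of_mul_le_mul_left h1 (Nat.factorial_pos t)

/-- MV-8.  Proof.  There are at most `(n+1)^s` sets `S` with `|S| ≤ s` (they are images of maps
`Fin s → Option V`), so at most `(n+1)^s * (M.choose t)` independent sets of size `t` (each is a
`t`-subset of some `C S`; enlarge: `(C S).card.choose t ≤ M.choose t`).  The number of `N`-subsets of
`V` which contain a given `t`-set is `(n-t).choose (N-t)`, and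
`(n-t).choose (N-t) * n^t ≤ n.choose N * N^t` (`Nat.choose_mul`:
`n.choose N * N.choose t = n.choose t * (n-t).choose (N-t)` and `N.choose t / n.choose t ≤ (N/n)^t`).
So the number of pairs (independent `t`-set `T`, `N`-set `W ⊇ T`) is less than the number
`n.choose N` of all `N`-sets, and some `W` contains no independent `t`-set. -/
theorem exists_subset {V : Type*} [Fintype V] [DecidableEq V] (G : SimpleGraph V)
    (s t M N : ℕ) (C : Finset V → Finset V)
    (hC : ∀ S, S.card ≤ s → (C S).card ≤ M)
    (hI : ∀ I : Finset V, G.IsIndepSet (I : Set V) → ∃ S ⊆ I, S.card ≤ s ∧ I ⊆ C S)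
    (htN : t ≤ N) (hN : N ≤ Fintype.card V)
    (hnum : ((Fintype.card V : ℝ) + 1) ^ s * (M.choose t : ℝ) *
      ((N : ℝ) / Fintype.card V) ^ t < 1) :
    ∃ W : Finset V, W.card = N ∧
      ∀ I : Finset V, I ⊆ W → I.card = t → ¬ G.IsIndepSet (I : Set V) := by
  classical
  by_contra hcon
  push Not at hcon
  set n := Fintype.card V with hn
  set 𝒮 := (univ : Finset (Finset V)).filter fun S => S.card ≤ s with h𝒮
  set B : Finset (Finset V) := (univ : Finset (Finset V)).filter
    (fun I : Finset V => I.card = t ∧ G.IsIndepSet (I : Set V)) with hB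
  have hBcard : B.card ≤ (n + 1) ^ s * M.choose t := by
    have h1 : B ⊆ 𝒮.biUnion fun S => powersetCard t (C S) := by
      intro I hI'
      rw [hB, mem_filter] at hI'
      obtain ⟨S, _, hS, hIS⟩ := hI I hI'.2.2
      rw [mem_biUnion]
      refine ⟨S, ?_, ?_⟩
      · rw [h𝒮, mem_filter]
        exact ⟨mem_univ _, hS⟩
      · rw [mem_powersetCard]
        exact ⟨hIS, hI'.2.1⟩
    refine (card_le_card h1).trans ?_
    refine (card_biUnion_le_card_mul _ _ (M.choose t) ?_).trans ?_
    · intro S hS
      rw [h𝒮, mem_filter] at hS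
      rw [card_powersetCard]
      exact Nat.choose_le_choose t (hC S hS.2)
    · exact Nat.mul_le_mul_right _ (cnt_small V s)
  have hcount : n.choose N ≤ B.card * (n - t).choose (N - t) := by
    have h1 : powersetCard N (univ : Finset V) ⊆
        B.biUnion fun T => (powersetCard N (univ : Finset V)).filter fun W => T ⊆ W := by
      intro W hW
      obtain ⟨I, hIW, hIt, hind⟩ := hcon W (mem_powersetCard.1 hW).2
      rw [mem_biUnion]
      refine ⟨I, ?_, ?_⟩
      · rw [hB, mem_filter]
        exact ⟨mem_univ _, hIt, hind⟩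
      · rw [mem_filter]
        exact ⟨hW, hIW⟩
    have h2 := card_le_card h1
    rw [card_powersetCard, card_univ] at h2
    refine h2.trans (card_biUnion_le_card_mul _ _ _ ?_)
    intro T hT
    rw [hB, mem_filter] at hT
    have h3 := cnt_super N T
    rw [hT.2.1] at h3
    exact h3
  set X := (n + 1) ^ s * M.choose t with hX
  have e1 : n.choose N ≤ X * (n - t).choose (N - t) :=
    hcount.trans (Nat.mul_le_mul_right _ hBcard)
  have e2 : n.choose N * N.choose t = n.choose t * (n - t).choose (N - t) :=
    Nat.choose_mul htN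
  have hposN : 0 < n.choose N := Nat.choose_pos hN
  have hpost : 0 < n.choose t := Nat.choose_pos (htN.trans hN)
  have e3 : n.choose t ≤ X * N.choose t := by
    refine Nat.le_of_mul_le_mul_left ?_ hposN
    calc n.choose N * n.choose t ≤ X * (n - t).choose (N - t) * n.choose t :=
          Nat.mul_le_mul_right _ e1
      _ = X * (n.choose t * (n - t).choose (N - t)) := by ring
      _ = X * (n.choose N * N.choose t) := by rw [e2]
      _ = n.choose N * (X * N.choose t) := by ring
  have e4 : n ^ t ≤ X * N ^ t := by
    refine Nat.le_of_mul_le_mul_left ?_ hpost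
    calc n.choose t * n ^ t ≤ X * N.choose t * n ^ t := Nat.mul_le_mul_right _ e3
      _ = X * (N.choose t * n ^ t) := by ring
      _ ≤ X * (n.choose t * N ^ t) := Nat.mul_le_mul_left _ (cnt_choose hN t)
      _ = n.choose t * (X * N ^ t) := by ring
  have ht : t ≠ 0 := by
    rintro rfl
    rw [Nat.choose_zero_right, pow_zero, Nat.cast_one, mul_one, mul_one] at hnum
    have h1 : (1 : ℝ) ≤ ((n : ℝ) + 1) ^ s := by
      apply one_le_pow₀
      have : (0 : ℝ) ≤ n := Nat.cast_nonneg n
      linarith
    linarith
  have hnpos : (0 : ℝ) < n := by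
    have h1 : 0 < n := by omega
    exact_mod_cast h1
  have e5 : (n : ℝ) ^ t ≤ (X : ℝ) * (N : ℝ) ^ t := by exact_mod_cast e4
  have e6 : ((n : ℝ) + 1) ^ s * (M.choose t : ℝ) = (X : ℝ) := by
    rw [hX]
    push_cast
    ring
  rw [e6, div_pow, ← mul_div_assoc, div_lt_one (by positivity)] at hnum
  linarith

end Pool.Agent.helper12.MV
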