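import Pool.Agent.helper12.MV.Basic
import Pool.Agent.helper12.MV.Field

/-!
# MV-2. The affine part of the Hermitian unital
-/

set_option autoImplicit false

namespace Pool.Agent.helper12.MV

open Finset

variable (K : Type) [Field K] [Fintype K] [DecidableEq K] (p : ℕ)

/-- the points `(x, y)` with `y^p + y = x^(p+1)` -/
abbrev UP : Type := {z : K × K // z.2 ^ p + z.2 = z.1 ^ (p + 1)}

/-- the lines `y = m x + b` which are not tangents -/
abbrev UL : Type := {l : K × K // l.2 ^ p + l.2 + l.1 ^ (p + 1) ≠ 0}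

/-- the points on a line -/
def upts (l : UL K p) : Finset (UP K p) :=
  univ.filter (fun z => z.1.2 = l.1.1 * z.1.1 + l.1.2)

variable {K p} [Fact p.Prime] [CharP K p]

private theorem geo_sum (q : K × K → Prop) [DecidablePred q] :
    Fintype.card {z : K × K // q z} = ∑ x : K, ((univ : Finset K).filter fun y => q (x, y)).card := by
  rw [Fintype.card_subtype, Finset.card_filter, Fintype.sum_prod_type]
  exact Finset.sum_congr rfl fun x _ => (Finset.card_filter _ _).symm

/-- MV-2a.  Proof: the map `z ↦ z.1.1` to `K` (with `p^2` elements) has fibres with at most `p`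
elements (`card_trace_fibre`). -/
theorem card_UP (hK : Fintype.card K = p ^ 2) : Fintype.card (UP K p) ≤ p ^ 3 := by
  rw [geo_sum]
  calc ∑ x : K, ((univ : Finset K).filter fun y => y ^ p + y = x ^ (p + 1)).card
      ≤ ∑ x : K, p := Finset.sum_le_sum fun x _ => card_trace_fibre (p := p) (x ^ (p + 1))
    _ = p ^ 3 := by
        rw [Finset.sum_const, Finset.card_univ, hK, smul_eq_mul]
        ring

/-- MV-2b.  Proof: for each `m` there are at most `p` elements `b` with `b^p + b = -m^(p+1)`, so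
the complement of `UL` in `K × K` has at most `p^3` elements. -/
theorem card_UL (hK : Fintype.card K = p ^ 2) :
    p ^ 4 ≤ Fintype.card (UL K p) + p ^ 3 ∧ Fintype.card (UL K p) ≤ p ^ 4 := by
  have hKK : Fintype.card (K × K) = p ^ 4 := by
    rw [Fintype.card_prod, hK]
    ring
  have h0 : Fintype.card {l : K × K // l.2 ^ p + l.2 + l.1 ^ (p + 1) = 0} ≤ p ^ 3 := by
    rw [geo_sum]
    calc ∑ x : K, ((univ : Finset K).filter fun y => y ^ p + y + x ^ (p + 1) = 0).card
        ≤ ∑ x : K, p := Finset.sum_le_sum fun x _ => by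
          have h := card_trace_fibre (p := p) (-(x ^ (p + 1)))
          refine le_trans (le_of_eq ?_) h
          congr 1
          refine Finset.filter_congr fun y _ => ?_
          rw [eq_neg_iff_add_eq_zero]
      _ = p ^ 3 := by
          rw [Finset.sum_const, Finset.card_univ, hK, smul_eq_mul]
          ring
  have h1 := Fintype.card_subtype_compl (fun l : K × K => l.2 ^ p + l.2 + l.1 ^ (p + 1) = 0)
  have h2 : Fintype.card (UL K p) =
      Fintype.card {l : K × K // ¬ l.2 ^ p + l.2 + l.1 ^ (p + 1) = 0} := rfl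
  rw [hKK] at h1
  constructor
  · omega
  · omega

private theorem geo_key (hK : Fintype.card K = p ^ 2) (m b x : K) :
    (m * x + b) ^ p + (m * x + b) = x ^ (p + 1) ↔
      (x - m ^ p) ^ (p + 1) = b ^ p + b + m ^ (p + 1) := by
  have h1 : (m * x + b) ^ p = m ^ p * x ^ p + b ^ p := by
    rw [add_pow_char, mul_pow]
  have h2 : (x - m ^ p) ^ (p + 1) = x ^ (p + 1) - m ^ p * x ^ p - m * x + m ^ (p + 1) := by
    rw [pow_succ (x - m ^ p), sub_pow_char, frob_frob hK]
    ring
  rw [h1, h2]
  constructor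
  · intro h
    rw [← h]
    ring
  · intro h
    linear_combination -h

/-- MV-2c.  Proof: let `c = b^p + b + m^(p+1)`, `c ≠ 0`, `c^p = c` (`add_pow_char`, `frob_frob`).  For
`y = m x + b`: `y^p + y = x^(p+1)` iff `(x - m^p)^(p+1) = c` (expand
`(x - m^p)^(p+1) = (x^p - (m^p)^p) (x - m^p) = (x^p - m)(x - m^p)`).  So the points on the line
correspond to the `w` with `w^(p+1) = c` by `x = w + m^p` (`card_norm_fibre`). -/
theorem card_upts (hK : Fintype.card K = p ^ 2) (l : UL K p) : (upts K p l).card = p + 1 := by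
  obtain ⟨⟨m, b⟩, hl⟩ := l
  have hcp : (b ^ p + b + m ^ (p + 1)) ^ p = b ^ p + b + m ^ (p + 1) := by
    rw [add_pow_char, add_pow_char, frob_frob hK, ← pow_mul, mul_comm (p + 1) p, pow_mul,
      pow_succ (m ^ p), frob_frob hK]
    ring
  refine Eq.trans ?_ (card_norm_fibre hK _ hl hcp)
  refine Finset.card_bij (fun z _ => z.1.1 - m ^ p) ?_ ?_ ?_
  · intro z hz
    have hz1 : z.1.2 = m * z.1.1 + b := (Finset.mem_filter.1 hz).2
    have hz2 := z.2
    rw [hz1] at hz2
    exact Finset.mem_filter.2 ⟨Finset.mem_univ _, (geo_key hK m b z.1.1).1 hz2⟩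
  · intro z hz z' hz' h
    have hz1 : z.1.2 = m * z.1.1 + b := (Finset.mem_filter.1 hz).2
    have hz1' : z'.1.2 = m * z'.1.1 + b := (Finset.mem_filter.1 hz').2
    have hx : z.1.1 = z'.1.1 := sub_left_inj.1 h
    apply Subtype.ext
    apply Prod.ext hx
    rw [hz1, hz1', hx]
  · intro w hw
    have hw1 : w ^ (p + 1) = b ^ p + b + m ^ (p + 1) := (Finset.mem_filter.1 hw).2
    have hk := (geo_key hK m b (w + m ^ p)).2 (by rw [add_sub_cancel_right]; exact hw1)
    refine ⟨⟨(w + m ^ p, m * (w + m ^ p) + b), hk⟩,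
      Finset.mem_filter.2 ⟨Finset.mem_univ _, rfl⟩, ?_⟩
    exact add_sub_cancel_right _ _

/-- MV-2d.  Two lines meet in at most one point. -/
theorem card_inter (l l' : UL K p) (h : l ≠ l') : (upts K p l ∩ upts K p l').card ≤ 1 := by
  refine Finset.card_le_one.2 fun z hz z' hz' => ?_
  rw [Finset.mem_inter] at hz hz'
  have h1 : z.1.2 = l.1.1 * z.1.1 + l.1.2 := (Finset.mem_filter.1 hz.1).2
  have h2 : z.1.2 = l'.1.1 * z.1.1 + l'.1.2 := (Finset.mem_filter.1 hz.2).2
  have h3 : z'.1.2 = l.1.1 * z'.1.1 + l.1.2 := (Finset.mem_filter.1 hz'.1).2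
  have h4 : z'.1.2 = l'.1.1 * z'.1.1 + l'.1.2 := (Finset.mem_filter.1 hz'.2).2
  have h5 : (l.1.1 - l'.1.1) * (z.1.1 - z'.1.1) = 0 := by
    linear_combination h2 - h1 + h3 - h4
  have hx : z.1.1 = z'.1.1 := by
    rcases mul_eq_zero.1 h5 with h6 | h6
    · exfalso
      apply h
      have h7 : l.1.1 = l'.1.1 := sub_eq_zero.1 h6
      apply Subtype.ext
      apply Prod.ext h7
      rw [h7] at h1
      linear_combination h2 - h1
    · exact sub_eq_zero.1 h6
  apply Subtype.ext
  apply Prod.ext hx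
  rw [h1, h3, hx]

end Pool.Agent.helper12.MV
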