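import Pool.Agent.helper12.MV.Basic

/-!
# MV-5. The exponential moment
-/

set_option autoImplicit false

namespace Pool.Agent.helper12.MV

open Finset

/-- MV-5a.  Proof: split `f : L → Bool` into its values; `∑_f exp(-#{l ∈ A, f l = b}/4) =
∏_l ∑_{c : Bool} (if l ∈ A ∧ c = b then exp(-1/4) else 1)` (`Finset.prod_univ_sum`,
`Fintype.piFinset_univ`) `= (1 + exp(-1/4))^|A| 2^(|L|-|A|)`. -/
theorem sum_exp_card {L : Type*} [Fintype L] [DecidableEq L] (A : Finset L) (b : Bool) :
    ∑ f : L → Bool, Real.exp (-((A.filter (fun l => f l = b)).card : ℝ) / 4) =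
      2 ^ Fintype.card L * ((1 + Real.exp (-(1 / 4))) / 2) ^ A.card := by
  set e : ℝ := Real.exp (-(1 / 4)) with he
  have h1 : ∀ f : L → Bool, Real.exp (-((A.filter (fun l => f l = b)).card : ℝ) / 4) =
      ∏ l, (if l ∈ A ∧ f l = b then e else 1) := by
    intro f
    have h2 : -((A.filter (fun l => f l = b)).card : ℝ) / 4 =
        ((A.filter (fun l => f l = b)).card : ℝ) * (-(1 / 4)) := by ring
    rw [h2, Real.exp_nat_mul, ← he, ← Finset.prod_const, Finset.prod_filter,
      ← Finset.prod_subset (Finset.subset_univ A)]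
    · refine Finset.prod_congr rfl fun l hl => ?_
      by_cases h3 : f l = b
      · rw [if_pos h3, if_pos ⟨hl, h3⟩]
      · rw [if_neg h3, if_neg fun h => h3 h.2]
    · intro l _ hl
      rw [if_neg fun h => hl h.1]
  have h2 : ∀ l : L, ∑ c : Bool, (if l ∈ A ∧ c = b then e else (1 : ℝ)) =
      2 * (if l ∈ A then (1 + e) / 2 else 1) := by
    intro l
    by_cases hl : l ∈ A
    · cases b <;> simp [hl] <;> ring
    · simp [hl]
  calc ∑ f : L → Bool, Real.exp (-((A.filter (fun l => f l = b)).card : ℝ) / 4)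
      = ∑ f : L → Bool, ∏ l, (if l ∈ A ∧ f l = b then e else 1) :=
        Finset.sum_congr rfl fun f _ => h1 f
    _ = ∏ l : L, ∑ c : Bool, (if l ∈ A ∧ c = b then e else (1 : ℝ)) := by
        rw [Finset.prod_univ_sum, Fintype.piFinset_univ]
    _ = ∏ l : L, (2 * (if l ∈ A then (1 + e) / 2 else 1)) :=
        Finset.prod_congr rfl fun l _ => h2 l
    _ = 2 ^ Fintype.card L * ((1 + e) / 2) ^ A.card := by
        rw [Finset.prod_mul_distrib, Finset.prod_const, Finset.card_univ,
          Finset.prod_ite_mem, Finset.univ_inter, Finset.prod_const]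

/-- the numerical estimate of MV-5b -/
private theorem num_est (x : ℕ) (hx : 11 ≤ x) :
    2 * ((1 + Real.exp (-(1 / 4))) / 2) ^ x ≤ Real.exp (-(x : ℝ) / 20) := by
  have h1 : Real.exp (-(1 / 4)) ≤ 384 / 493 := by
    have h2 : (493 / 384 : ℝ) ≤ Real.exp (1 / 4) := by
      have h3 := Real.sum_le_exp_of_nonneg (x := (1 / 4 : ℝ)) (by norm_num) 4
      refine le_trans ?_ h3
      norm_num [Finset.sum_range_succ, Nat.factorial]
    rw [Real.exp_neg]
    calc (Real.exp (1 / 4))⁻¹ ≤ (493 / 384 : ℝ)⁻¹ := inv_anti₀ (by norm_num) h2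
      _ = 384 / 493 := by norm_num
  have h2 : Real.exp (1 / 20) ≤ 20 / 19 := by
    have h3 : (19 / 20 : ℝ) ≤ Real.exp (-(1 / 20)) := by
      have := Real.add_one_le_exp (-(1 / 20) : ℝ)
      linarith
    have h4 : Real.exp (1 / 20) = (Real.exp (-(1 / 20)))⁻¹ := by
      rw [Real.exp_neg, inv_inv]
    rw [h4]
    calc (Real.exp (-(1 / 20)))⁻¹ ≤ (19 / 20 : ℝ)⁻¹ := inv_anti₀ (by norm_num) h3
      _ = 20 / 19 := by norm_num
  set q : ℝ := (1 + Real.exp (-(1 / 4))) / 2 * Real.exp (1 / 20) with hq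
  have hq0 : 0 ≤ q := by positivity
  have hq1 : q ≤ 9364 / 10000 := by
    have h3 : (1 + Real.exp (-(1 / 4))) / 2 ≤ (1 + 384 / 493) / 2 := by linarith
    calc q ≤ (1 + 384 / 493) / 2 * (20 / 19) :=
          mul_le_mul h3 h2 (Real.exp_pos _).le (by norm_num)
      _ ≤ 9364 / 10000 := by norm_num
  have hq2 : q ^ x ≤ 1 / 2 := by
    calc q ^ x ≤ q ^ 11 := pow_le_pow_of_le_one hq0 (by linarith) hx
      _ ≤ (9364 / 10000) ^ 11 := pow_le_pow_left₀ hq0 hq1 11
      _ ≤ 1 / 2 := by norm_num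
  have h3 : ((1 + Real.exp (-(1 / 4))) / 2) ^ x = q ^ x * Real.exp (-(x : ℝ) / 20) := by
    have h4 : Real.exp (-(x : ℝ) / 20) = Real.exp (-(1 / 20)) ^ x := by
      rw [← Real.exp_nat_mul]
      congr 1
      ring
    rw [h4, ← mul_pow]
    congr 1
    rw [hq, mul_assoc, ← Real.exp_add]
    norm_num
  rw [h3]
  have h5 := Real.exp_pos (-(x : ℝ) / 20)
  nlinarith

/-- MV-5b.  Proof.  Let `x = |A|`, `u = #{l ∈ A, f l = true}`, `v = #{l ∈ A, f l = false}`, `u + v = x`.
If `u ≤ v` then `v ≥ x/2` and `lam * (u v) ≥ lam * x * u / 2 ≥ u / 4`; so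
`exp(-lam u v) ≤ exp(-u/4) + exp(-v/4)` in both cases.  By MV-5a the sum is at most
`2 * 2^|L| * ((1 + exp(-1/4))/2)^x`.  Numerics: `exp(1/4) ≥ 1 + 1/4 + 1/32 + 1/384`, so
`(1 + exp(-1/4))/2 ≤ 0.8895`; `exp(1/20) ≤ 1/(1 - 1/20)`; the product of the two is `≤ 0.9364`,
and `0.9364^11 ≤ 1/2`.  Hence `2 ((1 + exp(-1/4))/2)^x ≤ exp(-x/20)` for `x ≥ 11`. -/
theorem sum_exp_prod {L : Type*} [Fintype L] [DecidableEq L] (A : Finset L) (lam : ℝ)
    (hA : 11 ≤ A.card) (hlam : 1 / 2 ≤ lam * A.card) :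
    ∑ f : L → Bool, Real.exp (-(lam * ((A.filter (fun l => f l = true)).card *
        (A.filter (fun l => f l = false)).card))) ≤
      2 ^ Fintype.card L * Real.exp (-(A.card : ℝ) / 20) := by
  have hx : (0 : ℝ) < A.card := by
    have : (11 : ℝ) ≤ A.card := by exact_mod_cast hA
    linarith
  have hlam0 : 0 < lam := by
    by_contra hc
    push Not at hc
    nlinarith
  have key : ∀ f : L → Bool, Real.exp (-(lam * ((A.filter (fun l => f l = true)).card *
      (A.filter (fun l => f l = false)).card))) ≤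
      Real.exp (-((A.filter (fun l => f l = true)).card : ℝ) / 4) +
        Real.exp (-((A.filter (fun l => f l = false)).card : ℝ) / 4) := by
    intro f
    set u : ℝ := ((A.filter (fun l => f l = true)).card : ℝ) with hu
    set v : ℝ := ((A.filter (fun l => f l = false)).card : ℝ) with hv
    have huv : u + v = A.card := by
      rw [hu, hv]
      have h1 := Finset.card_filter_add_card_filter_not (s := A) (fun l => f l = true)
      simp only [Bool.not_eq_true] at h1
      exact_mod_cast h1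
    have hu0 : 0 ≤ u := Nat.cast_nonneg _
    have hv0 : 0 ≤ v := Nat.cast_nonneg _
    rcases le_total u v with h | h
    · have h1 : Real.exp (-(lam * (u * v))) ≤ Real.exp (-u / 4) := by
        apply Real.exp_le_exp.2
        have h2 : (1 / 4 : ℝ) ≤ lam * v := by nlinarith
        nlinarith
      have h3 := Real.exp_pos (-v / 4)
      linarith
    · have h1 : Real.exp (-(lam * (u * v))) ≤ Real.exp (-v / 4) := by
        apply Real.exp_le_exp.2
        have h2 : (1 / 4 : ℝ) ≤ lam * u := by nlinarith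
        nlinarith
      have h3 := Real.exp_pos (-u / 4)
      linarith
  calc _ ≤ ∑ f : L → Bool, (Real.exp (-((A.filter (fun l => f l = true)).card : ℝ) / 4) +
        Real.exp (-((A.filter (fun l => f l = false)).card : ℝ) / 4)) :=
        Finset.sum_le_sum fun f _ => key f
    _ = 2 ^ Fintype.card L * (2 * ((1 + Real.exp (-(1 / 4))) / 2) ^ A.card) := by
        rw [Finset.sum_add_distrib, sum_exp_card, sum_exp_card]
        ring
    _ ≤ 2 ^ Fintype.card L * Real.exp (-(A.card : ℝ) / 20) :=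
        mul_le_mul_of_nonneg_left (num_est _ hA) (by positivity)

end Pool.Agent.helper12.MV
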