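import Pool.Agent.helper12.MV.Geo

/-!
# MV-3. The Hermitian unital contains no O'Nan configuration
-/

set_option autoImplicit false

namespace Pool.Agent.helper12.MV

open Finset

section core

variable {F : Type} [Field F]

private theorem onan_comb {m b x1 x2 x3 y1 y2 y3 : F} (h1 : y1 = m * x1 + b)
    (h2 : y2 = m * x2 + b) (h3 : y3 = m * x3 + b) (h12 : x1 ≠ x2) (h13 : x1 ≠ x3)
    (h23 : x2 ≠ x3) :
    ∃ d1 d2 : F, d1 ≠ 0 ∧ d2 ≠ 0 ∧ d2 = 1 - d1 ∧ x3 = d1 * x1 + d2 * x2 ∧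
      y3 = d1 * y1 + d2 * y2 := by
  have e12 : x1 - x2 ≠ 0 := sub_ne_zero.2 h12
  refine ⟨(x3 - x2) / (x1 - x2), (x1 - x3) / (x1 - x2), ?_, ?_, ?_, ?_, ?_⟩
  · exact div_ne_zero (sub_ne_zero.2 h23.symm) e12
  · exact div_ne_zero (sub_ne_zero.2 h13) e12
  · field_simp
    ring
  · field_simp
    ring
  · subst h1 h2 h3
    field_simp
    ring

private theorem onan_gram {xA yA xB yB xC yC xA' yA' xB' yB' xC' yC' : F}
    (hA : xA * xA' - yA - yA' = 0) (hB : xB * xB' - yB - yB' = 0)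
    (hC : xC * xC' - yC - yC' = 0) :
    (xA * xB' - yA - yB') * (xB * xC' - yB - yC') * (xC * xA' - yC - yA') +
      (xA * xC' - yA - yC') * (xB * xA' - yB - yA') * (xC * xB' - yC - yB') =
    - ((xA * (yB - yC) - yA * (xB - xC) + (xB * yC - xC * yB)) *
        (xA' * (yB' - yC') - yA' * (xB' - xC') + (xB' * yC' - xC' * yB'))) := by
  linear_combination ((xB * xC' - yB - yC') * (xC * xB' - yC - yB') -
      (xB * xB' - yB - yB') * (xC * xC' - yC - yC')) * hA +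
    (xA * xC' - yA - yC') * (xC * xA' - yC - yA') * hB +
    (xA * xB' - yA - yB') * (xB * xA' - yB - yA') * hC

/-- the value of the form on an affine combination of two points of the unital -/
private theorem onan_herm {d1 d2 e1 e2 xA yA xB yB xD yD xA' yA' xB' yB' xD' yD' : F}
    (hd : d2 = 1 - d1) (he : e2 = 1 - e1)
    (hA : xA * xA' - yA - yA' = 0) (hB : xB * xB' - yB - yB' = 0)
    (hD : xD * xD' - yD - yD' = 0)
    (h1 : xD = d1 * xA + d2 * xB) (h2 : yD = d1 * yA + d2 * yB)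
    (h3 : xD' = e1 * xA' + e2 * xB') (h4 : yD' = e1 * yA' + e2 * yB') :
    d1 * e2 * (xA * xB' - yA - yB') + d2 * e1 * (xB * xA' - yB - yA') = 0 := by
  subst h1 h2 h3 h4 hd he
  linear_combination hD - d1 * e1 * hA - (1 - d1) * (1 - e1) * hB

private theorem onan_core (σ : F →+* F) (hσ : ∀ z, σ (σ z) = z)
    {xA yA xB yB xC yC xD yD xE yE xF yF m0 b0 m1 b1 m2 b2 m3 b3 : F}
    (uA : xA * σ xA - yA - σ yA = 0) (uB : xB * σ xB - yB - σ yB = 0)
    (uC : xC * σ xC - yC - σ yC = 0) (uD : xD * σ xD - yD - σ yD = 0)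
    (uE : xE * σ xE - yE - σ yE = 0) (uF : xF * σ xF - yF - σ yF = 0)
    (lA0 : yA = m0 * xA + b0) (lB0 : yB = m0 * xB + b0) (lD0 : yD = m0 * xD + b0)
    (lA1 : yA = m1 * xA + b1) (lC1 : yC = m1 * xC + b1) (lE1 : yE = m1 * xE + b1)
    (lB2 : yB = m2 * xB + b2) (lC2 : yC = m2 * xC + b2) (lF2 : yF = m2 * xF + b2)
    (lD3 : yD = m3 * xD + b3) (lE3 : yE = m3 * xE + b3) (lF3 : yF = m3 * xF + b3)
    (nAB : xA ≠ xB) (nAD : xA ≠ xD) (nBD : xB ≠ xD) (nAC : xA ≠ xC) (nAE : xA ≠ xE)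
    (nCE : xC ≠ xE) (nBC : xB ≠ xC) (nBF : xB ≠ xF) (nCF : xC ≠ xF)
    (h01 : m0 = m1 → b0 = b1 → False) : False := by
  obtain ⟨d1, d2, hd1, hd2, hd, hxD, hyD⟩ := onan_comb lA0 lB0 lD0 nAB nAD nBD
  obtain ⟨e1, e2, he1, he2, he, hxE, hyE⟩ := onan_comb lA1 lC1 lE1 nAC nAE nCE
  obtain ⟨f1, f2, hf1, hf2, hf, hxF, hyF⟩ := onan_comb lB2 lC2 lF2 nBC nBF nCF
  -- the determinant of `A, B, C`
  obtain ⟨Δ, hΔ⟩ : ∃ Δ, Δ = xA * (yB - yC) - yA * (xB - xC) + (xB * yC - xC * yB) := ⟨_, rfl⟩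
  have hΔ0 : Δ ≠ 0 := by
    have h1 : Δ = (xB - xA) * (yC - m0 * xC - b0) := by
      rw [hΔ]
      linear_combination (xC - xB) * lA0 + (xA - xC) * lB0
    rw [h1]
    refine mul_ne_zero (sub_ne_zero.2 nAB.symm) ?_
    intro h2
    have h3 : (m0 - m1) * (xA - xC) = 0 := by
      linear_combination lA1 - lA0 - lC1 + h2
    have h4 : m0 = m1 := by
      rcases mul_eq_zero.1 h3 with h | h
      · exact sub_eq_zero.1 h
      · exact absurd (sub_eq_zero.1 h) nAC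
    refine h01 h4 ?_
    subst h4
    linear_combination lA1 - lA0
  -- `D, E, F` are collinear
  have h0 : xD * (yE - yF) - yD * (xE - xF) + (xE * yF - xF * yE) = 0 := by
    linear_combination (xF - xE) * lD3 + (xD - xF) * lE3 + (xE - xD) * lF3
  have hdef : d1 * f1 * e2 = - (d2 * e1 * f2) := by
    have h1 : xD * (yE - yF) - yD * (xE - xF) + (xE * yF - xF * yE) =
        - (d1 * f1 * e2 + d2 * e1 * f2) * Δ := by
      rw [hΔ, hxD, hyD, hxE, hyE, hxF, hyF, hd, he, hf]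
      ring
    rw [h0] at h1
    have h2 := mul_eq_zero.1 h1.symm
    rcases h2 with h2 | h2
    · linear_combination - h2
    · exact absurd h2 hΔ0
  -- conjugates
  have cdef : σ d1 * σ f1 * σ e2 = - (σ d2 * σ e1 * σ f2) := by
    have := congrArg σ hdef
    simpa only [map_mul, map_neg] using this
  have sd : σ d2 = 1 - σ d1 := by rw [hd, map_sub, map_one]
  have se : σ e2 = 1 - σ e1 := by rw [he, map_sub, map_one]
  have sf : σ f2 = 1 - σ f1 := by rw [hf, map_sub, map_one]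
  have sxD : σ xD = σ d1 * σ xA + σ d2 * σ xB := by rw [hxD, map_add, map_mul, map_mul]
  have syD : σ yD = σ d1 * σ yA + σ d2 * σ yB := by rw [hyD, map_add, map_mul, map_mul]
  have sxE : σ xE = σ e1 * σ xA + σ e2 * σ xC := by rw [hxE, map_add, map_mul, map_mul]
  have syE : σ yE = σ e1 * σ yA + σ e2 * σ yC := by rw [hyE, map_add, map_mul, map_mul]
  have sxF : σ xF = σ f1 * σ xB + σ f2 * σ xC := by rw [hxF, map_add, map_mul, map_mul]
  have syF : σ yF = σ f1 * σ yB + σ f2 * σ yC := by rw [hyF, map_add, map_mul, map_mul]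
  have hu := onan_herm hd sd uA uB uD hxD hyD sxD syD
  have hv := onan_herm he se uA uC uE hxE hyE sxE syE
  have hw := onan_herm hf sf uB uC uF hxF hyF sxF syF
  have hg := onan_gram uA uB uC
  have hsΔ : σ xA * (σ yB - σ yC) - σ yA * (σ xB - σ xC) + (σ xB * σ yC - σ xC * σ yB) = σ Δ := by
    rw [hΔ]
    simp only [map_mul, map_add, map_sub]
  rw [hsΔ, ← hΔ] at hg
  obtain ⟨h, hh⟩ : ∃ h, h = xA * σ xB - yA - σ yB := ⟨_, rfl⟩
  obtain ⟨h', hh'⟩ : ∃ h', h' = xB * σ xA - yB - σ yA := ⟨_, rfl⟩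
  obtain ⟨k, hk⟩ : ∃ k, k = xA * σ xC - yA - σ yC := ⟨_, rfl⟩
  obtain ⟨k', hk'⟩ : ∃ k', k' = xC * σ xA - yC - σ yA := ⟨_, rfl⟩
  obtain ⟨l, hl⟩ : ∃ l, l = xB * σ xC - yB - σ yC := ⟨_, rfl⟩
  obtain ⟨l', hl'⟩ : ∃ l', l' = xC * σ xB - yC - σ yB := ⟨_, rfl⟩
  rw [← hh, ← hh'] at hu
  rw [← hk, ← hk'] at hv
  rw [← hl, ← hl'] at hw
  rw [← hh, ← hl, ← hk', ← hk, ← hh', ← hl'] at hg
  have hn : d2 * e1 * f2 ≠ 0 := mul_ne_zero (mul_ne_zero hd2 he1) hf2
  have hsn : σ d2 * σ e1 * σ f2 ≠ 0 := by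
    have h1 := (map_ne_zero σ).2 hn
    simpa only [map_mul] using h1
  have key : (d2 * e1 * f2) * (σ d2 * σ e1 * σ f2) * (h * l * k' + k * h' * l') = 0 := by
    have e1' : (d2 * e1 * f2) * (σ d2 * σ e1 * σ f2) * (h * l * k') =
        (d1 * σ d2 * h) * (f1 * σ f2 * l) * (e1 * σ e2 * k) := by
      linear_combination ((σ d2 * σ e1 * σ f2) * (h * l * k')) * hdef -
        (d1 * σ d2 * h) * (f1 * σ f2 * l) * hv
    have e2' : (d2 * e1 * f2) * (σ d2 * σ e1 * σ f2) * (k * h' * l') =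
        - ((d1 * σ d2 * h) * (f1 * σ f2 * l) * (e1 * σ e2 * k)) := by
      linear_combination ((d2 * e1 * f2) * (k * h' * l')) * cdef -
        (f2 * σ f1 * l') * (e1 * σ e2 * k) * hu +
        (d1 * σ d2 * h) * (e1 * σ e2 * k) * hw
    linear_combination e1' + e2'
  have h5 : h * l * k' + k * h' * l' = 0 := by
    rcases mul_eq_zero.1 key with h6 | h6
    · exact absurd h6 (mul_ne_zero hn hsn)
    · exact h6
  rw [h5] at hg
  have h7 : Δ * σ Δ = 0 := by linear_combination hg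
  rcases mul_eq_zero.1 h7 with h8 | h8
  · exact hΔ0 h8
  · exact (map_ne_zero σ).2 hΔ0 h8

end core

variable {K : Type} [Field K] [Fintype K] [DecidableEq K] {p : ℕ} [Fact p.Prime] [CharP K p]

/-- MV-3.  No O'Nan configuration.  Proof (write `z̄ = z^p`, an involutive automorphism, fixed
elements = elements with `z̄ = z`).  Let the lines be `y = m_i x + b_i`.
(1) No three of the four lines are concurrent: if lines `i, j, k` meet in one point then
`a i j = a i k` by `card_inter`-type uniqueness.  In particular the `m_i` ...; put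
`A = a 0 1`, `B = a 0 2`, `C = a 1 2` as vectors `(x, y, 1)` of `K³`.  They are linearly independent,
i.e. `det (A,B,C) ≠ 0`: `A, B` lie on line 0, `A ≠ B`, so they have different `x` and a point
`C` with `det = 0` lies on the line through `A` and `B`, i.e. on line 0; but then `C` and `A` are
both on the lines 0 and 1, so `C = A`.
(2) `D = a 0 3` lies on line 0, so `D = d₁ A + d₂ B` with `d₁ + d₂ = 1` (as `(x,y,1)` vectors); `D ≠ A`,
`D ≠ B` so `d₁, d₂ ≠ 0`.  Similarly `E = a 1 3 = e₁ A + e₂ C`, `F = a 2 3 = f₁ B + f₂ C`, all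
coefficients nonzero.  `D, E, F` lie on line 3: `det(D,E,F) = 0`, which is
`(- d₁ f₁ e₂ - d₂ e₁ f₂) det(A,B,C) = 0`, hence `d₁ f₁ e₂ = - d₂ e₁ f₂`.
(3) Hermitian form `H(P,P') = x x'̄ - y - y'̄` for `P = (x,y,1)`, `P' = (x',y',1)` (in general
`x x'̄ - y z'̄ - z y'̄`); `H(P,P) = 0` on the unital.  Put `h = H(A,B)`, `k = H(A,C)`, `l = H(B,C)`;
`H(B,A) = h̄` etc.  `0 = H(D,D) = d₁ d₂̄ h + (d₁ d₂̄ h)‾`, so `u = d₁ d₂̄ h` has `ū = -u`; similarly
`v = e₁ e₂̄ k`, `w = f₁ f₂̄ l` have `v̄ = -v`, `w̄ = -w`.  `u w v̄ = d₁ d₂̄ f₁ f₂̄ e₁̄ e₂ h l k̄ =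
(d₁ f₁ e₂)(d₂ f₂ e₁)‾ h l k̄ = - N h l k̄` with `N = (d₂ e₁ f₂)(d₂ e₁ f₂)‾ ≠ 0`, `N̄ = N`.
`(u w v̄)‾ = ū w̄ v = u w v` and `v = - v̄` gives `(u w v̄)‾ = - u w v̄`.  So `(h l k̄)‾ = - h l k̄`, i.e.
`h l k̄ + h̄ l̄ k = 0`.
(4) But `h l k̄ + h̄ l̄ k` is the determinant of the Gram matrix
`!![0, h, k; h̄, 0, l; k̄, l̄, 0]`, which equals `det(A,B,C) * (det(A,B,C))‾ * det !![1,0,0;0,0,-1;0,-1,0]
= - det(A,B,C) * (det(A,B,C))‾ ≠ 0`.  Contradiction.  (For Lean: the final identity is a polynomial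
identity in the coordinates `x, y, x̄, ȳ` of `A, B, C`, closed by `ring`/`linear_combination`.) -/
theorem noONan (hK : Fintype.card K = p ^ 2) : NoONan (upts K p) := by
  intro l a hl hmem hinj
  have : ExpChar K p := ExpChar.prime Fact.out
  have hσ : ∀ z : K, frobenius K p (frobenius K p z) = z := by
    intro z
    rw [frobenius_def, frobenius_def]
    exact frob_frob hK z
  have hu : ∀ z : UP K p, z.1.1 * frobenius K p z.1.1 - z.1.2 - frobenius K p z.1.2 = 0 := by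
    intro z
    have h1 := z.2
    rw [frobenius_def, frobenius_def]
    rw [pow_succ] at h1
    linear_combination - h1
  have hline : ∀ i j, i < j → (a i j).1.2 = (l i).1.1 * (a i j).1.1 + (l i).1.2 ∧
      (a i j).1.2 = (l j).1.1 * (a i j).1.1 + (l j).1.2 := by
    intro i j hij
    obtain ⟨h1, h2⟩ := hmem i j hij
    exact ⟨(Finset.mem_filter.1 h1).2, (Finset.mem_filter.1 h2).2⟩
  have hx : ∀ (z w : UP K p) (m b : K), z.1.2 = m * z.1.1 + b → w.1.2 = m * w.1.1 + b → z ≠ w →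
      z.1.1 ≠ w.1.1 := by
    intro z w m b h1 h2 hne h3
    apply hne
    apply Subtype.ext
    refine Prod.ext h3 ?_
    rw [h1, h2, h3]
  have hne : ∀ i j k m, i < j → k < m → ¬ (i = k ∧ j = m) → a i j ≠ a k m :=
    fun i j k m h1 h2 h3 h4 => h3 (hinj i j k m h1 h2 h4)
  have t01 := hline 0 1 (by decide)
  have t02 := hline 0 2 (by decide)
  have t03 := hline 0 3 (by decide)
  have t12 := hline 1 2 (by decide)
  have t13 := hline 1 3 (by decide)
  have t23 := hline 2 3 (by decide)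
  refine onan_core (frobenius K p) hσ (hu (a 0 1)) (hu (a 0 2)) (hu (a 1 2)) (hu (a 0 3))
    (hu (a 1 3)) (hu (a 2 3)) t01.1 t02.1 t03.1 t01.2 t12.1 t13.1 t02.2 t12.2 t23.1 t03.2 t13.2
    t23.2 ?_ ?_ ?_ ?_ ?_ ?_ ?_ ?_ ?_ ?_
  · exact hx _ _ _ _ t01.1 t02.1 (hne _ _ _ _ (by decide) (by decide) (by decide))
  · exact hx _ _ _ _ t01.1 t03.1 (hne _ _ _ _ (by decide) (by decide) (by decide))
  · exact hx _ _ _ _ t02.1 t03.1 (hne _ _ _ _ (by decide) (by decide) (by decide))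
  · exact hx _ _ _ _ t01.2 t12.1 (hne _ _ _ _ (by decide) (by decide) (by decide))
  · exact hx _ _ _ _ t01.2 t13.1 (hne _ _ _ _ (by decide) (by decide) (by decide))
  · exact hx _ _ _ _ t12.1 t13.1 (hne _ _ _ _ (by decide) (by decide) (by decide))
  · exact hx _ _ _ _ t02.2 t12.2 (hne _ _ _ _ (by decide) (by decide) (by decide))
  · exact hx _ _ _ _ t02.2 t23.1 (hne _ _ _ _ (by decide) (by decide) (by decide))
  · exact hx _ _ _ _ t12.2 t23.1 (hne _ _ _ _ (by decide) (by decide) (by decide))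
  · intro h1 h2
    have h3 : l 0 = l 1 := Subtype.ext (Prod.ext h1 h2)
    exact absurd (hl h3) (by decide)

end Pool.Agent.helper12.MV
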